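import Pool.Agent.Run7.h100.UN.Iface
import Pool.Agent.W976.MF.SPL

/-! Piece `SPLIT` of helper100's project UN. -/

set_option autoImplicit false

namespace Run7.h594.UN

open Polynomial Pool.Agent.W458.MF Run7.h100.UN

/-- Hensel's lemma: if a monic polynomial is a product of different linear factors modulo `p`, all its
roots in an algebraic closure of `ℚ_[p]` are in `ℚ_[p]`. -/
lemma roots_padic {p : ℕ} [Fact p.Prime] {R : ℤ[X]} (hR : R.Monic) (hs : SplitsMod R p)
    (β : AlgebraicClosure ℚ_[p]) (hβ : aeval β R = 0) :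
    ∃ y : ℚ_[p], β = algebraMap ℚ_[p] (AlgebraicClosure ℚ_[p]) y := by
  classical
  obtain ⟨T, hT⟩ := hs
  have hsep : (R.map (Int.castRingHom (ZMod p))).Separable := by
    rw [hT, separable_prod_X_sub_C_iff']
    intro x _ y _ h
    exact h
  have hdeg : R.natDegree = T.card := by
    rw [← hR.natDegree_map (Int.castRingHom (ZMod p)), hT,
      natDegree_finset_prod_X_sub_C_eq_card]
  have e0 : ∀ (t : ZMod p) (F : ℤ[X]),
      ((F.eval (t.val : ℤ) : ℤ) : ZMod p) = (F.map (Int.castRingHom (ZMod p))).eval t := by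
    intro t F
    have h1 := eval_intCast_map (Int.castRingHom (ZMod p)) F (t.val : ℤ)
    have h2 : (((t.val : ℤ)) : ZMod p) = t := by
      push_cast
      exact ZMod.natCast_zmod_val t
    rw [h2] at h1
    rw [h1]
    simp
  have e1 : ∀ (n : ℤ) (F : ℤ[X]), aeval ((n : ℤ_[p])) F = ((F.eval n : ℤ) : ℤ_[p]) := by
    intro n F
    have h1 := eval_intCast_map (algebraMap ℤ ℤ_[p]) F n
    rw [eval_map_algebraMap] at h1
    rw [h1]
    simp
  have key : ∀ t : ZMod p, t ∈ T → ∃ z : ℤ_[p], aeval z R = 0 ∧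
      ‖z - (((t.val : ℤ)) : ℤ_[p])‖ < 1 := by
    intro t ht
    have hroot : (R.map (Int.castRingHom (ZMod p))).eval t = 0 := by
      rw [hT, eval_prod]
      exact Finset.prod_eq_zero ht (by simp)
    have hd : (derivative (R.map (Int.castRingHom (ZMod p)))).eval t ≠ 0 := by
      have := hsep.aeval_derivative_ne_zero (x := t) (by simpa using hroot)
      simpa using this
    have h0 : ‖aeval (((t.val : ℤ)) : ℤ_[p]) R‖ < 1 := by
      rw [e1, PadicInt.norm_int_lt_one_iff_dvd, ← ZMod.intCast_zmod_eq_zero_iff_dvd, e0]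
      exact hroot
    have h1 : ‖aeval (((t.val : ℤ)) : ℤ_[p]) (derivative R)‖ = 1 := by
      refine le_antisymm (PadicInt.norm_le_one _) ?_
      by_contra hc
      rw [not_le, e1, PadicInt.norm_int_lt_one_iff_dvd, ← ZMod.intCast_zmod_eq_zero_iff_dvd,
        e0, ← derivative_map] at hc
      exact hd hc
    obtain ⟨z, hz0, hz1, -, -⟩ := hensels_lemma (F := R) (a := (((t.val : ℤ)) : ℤ_[p]))
      (by rw [h1, one_pow]; exact h0)
    rw [h1] at hz1
    exact ⟨z, hz0, hz1⟩
  choose! z hz0 hz1 using key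
  have hinj : ∀ t ∈ T, ∀ t' ∈ T, z t = z t' → t = t' := by
    intro t ht t' ht' h
    have h1 := hz1 t ht
    have h2 := hz1 t' ht'
    rw [← h] at h2
    have h3 : ‖((((t.val : ℤ) - (t'.val : ℤ) : ℤ)) : ℤ_[p])‖ < 1 := by
      have h4 : ((((t.val : ℤ) - (t'.val : ℤ) : ℤ)) : ℤ_[p]) =
          -(z t - ((t.val : ℤ) : ℤ_[p])) + (z t - ((t'.val : ℤ) : ℤ_[p])) := by
        push_cast
        ring
      rw [h4]
      refine (PadicInt.nonarchimedean _ _).trans_lt (max_lt ?_ h2)
      rw [norm_neg]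
      exact h1
    rw [PadicInt.norm_int_lt_one_iff_dvd, ← ZMod.intCast_zmod_eq_zero_iff_dvd] at h3
    push_cast at h3
    rw [ZMod.natCast_zmod_val, ZMod.natCast_zmod_val, sub_eq_zero] at h3
    exact h3
  set φ : ℤ_[p] →+* AlgebraicClosure ℚ_[p] :=
    (algebraMap ℚ_[p] (AlgebraicClosure ℚ_[p])).comp (PadicInt.Coe.ringHom) with hφ
  have hφi : Function.Injective φ := by
    rw [hφ]
    exact (algebraMap ℚ_[p] (AlgebraicClosure ℚ_[p])).injective.comp Subtype.coe_injective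
  have hφ0 : ∀ t ∈ T, aeval (φ (z t)) R = 0 := by
    intro t ht
    have h1 := congrArg φ (hz0 t ht)
    rw [map_zero, aeval_def, hom_eval₂] at h1
    rw [aeval_def]
    have h2 : φ.comp (algebraMap ℤ ℤ_[p]) = algebraMap ℤ (AlgebraicClosure ℚ_[p]) :=
      RingHom.ext_int _ _
    rw [h2] at h1
    exact h1
  have hRK : R.map (algebraMap ℤ (AlgebraicClosure ℚ_[p])) ≠ 0 := (hR.map _).ne_zero
  have hsub : T.image (fun t => φ (z t)) ⊆
      (R.map (algebraMap ℤ (AlgebraicClosure ℚ_[p]))).roots.toFinset := by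
    intro w hw
    obtain ⟨t, ht, rfl⟩ := Finset.mem_image.1 hw
    rw [Multiset.mem_toFinset, mem_roots hRK, IsRoot.def, eval_map_algebraMap]
    exact hφ0 t ht
  have hcard : (T.image (fun t => φ (z t))).card = T.card := by
    apply Finset.card_image_of_injOn
    intro t ht t' ht' h
    exact hinj t ht t' ht' (hφi h)
  have heq := Finset.eq_of_subset_of_card_le hsub (by
    rw [hcard, ← hdeg, ← hR.natDegree_map (algebraMap ℤ (AlgebraicClosure ℚ_[p]))]
    exact (Multiset.toFinset_card_le _).trans (card_roots' _))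
  have hmem : β ∈ (R.map (algebraMap ℤ (AlgebraicClosure ℚ_[p]))).roots.toFinset := by
    rw [Multiset.mem_toFinset, mem_roots hRK, IsRoot.def, eval_map_algebraMap]
    exact hβ
  rw [← heq] at hmem
  obtain ⟨t, -, ht⟩ := Finset.mem_image.1 hmem
  exact ⟨(z t : ℚ_[p]), ht.symm⟩

lemma qb_int (c : Qb) : IsIntegral ℚ c :=
  ((AlgebraicClosure.isAlgebraic ℚ).isAlgebraic c).isIntegral

/-- denominators (as in `Pool.Agent.H58P`) -/
lemma exists_den (c : Qb) : ∃ d : ℕ, 0 < d ∧ IsIntegral ℤ ((d : Qb) * c) := by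
  have halg : IsAlgebraic ℤ c := (IsFractionRing.isAlgebraic_iff ℤ ℚ Qb).mpr
    (qb_int c).isAlgebraic
  obtain ⟨y, hy0, hy⟩ := halg.exists_integral_multiple
  refine ⟨y.natAbs, Int.natAbs_pos.mpr hy0, ?_⟩
  rcases Int.natAbs_eq y with h | h
  · have h2 : ((y.natAbs : ℕ) : Qb) = ((y : ℤ) : Qb) := by
      rw [← Int.cast_natCast, ← h]
    rw [h2]
    simpa [zsmul_eq_mul] using hy
  · have h2 : ((y.natAbs : ℕ) : Qb) = -((y : ℤ) : Qb) := by
      have : ((y.natAbs : ℕ) : ℤ) = -y := by omega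
      rw [← Int.cast_natCast, this, Int.cast_neg]
    rw [h2, neg_mul]
    have := hy.neg
    simpa [zsmul_eq_mul] using this

theorem t_SPLIT : S_SPLIT := by
  intro A B
  haveI : Finite (A : Set Qb) := A.finite_toSet
  haveI hfd : FiniteDimensional ℚ (IntermediateField.adjoin ℚ (A : Set Qb)) :=
    IntermediateField.finiteDimensional_adjoin fun y _ => qb_int y
  obtain ⟨θ, hθ⟩ := Field.exists_primitive_element ℚ (IntermediateField.adjoin ℚ (A : Set Qb))
  obtain ⟨n, hn, hint⟩ := exists_den (θ : Qb)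
  have hR : (minpoly ℤ ((n : Qb) * (θ : Qb))).Monic := minpoly.monic hint
  have hsep : ((minpoly ℤ ((n : Qb) * (θ : Qb))).map (Int.castRingHom ℚ)).Separable := by
    have h1 := minpoly.isIntegrallyClosed_eq_field_fractions' ℚ hint
    have h2 : (algebraMap ℤ ℚ) = Int.castRingHom ℚ := rfl
    rw [h2] at h1
    rw [← h1]
    exact (minpoly.irreducible (qb_int _)).separable
  obtain ⟨p, ⟨hp, hs⟩, hBp⟩ := (Pool.Agent.W976.MF.SPL _ hR hsep).exists_gt B
  refine ⟨p, hp, hBp, fun x hx _ σ => ?_⟩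
  have h1 : aeval (σ ((n : Qb) * (θ : Qb))) (minpoly ℤ ((n : Qb) * (θ : Qb))) = 0 := by
    have h2 := congrArg σ (minpoly.aeval ℤ ((n : Qb) * (θ : Qb)))
    rw [map_zero, aeval_def, hom_eval₂] at h2
    rw [aeval_def]
    have h3 : σ.comp (algebraMap ℤ Qb) = algebraMap ℤ (AlgebraicClosure ℚ_[p]) :=
      RingHom.ext_int _ _
    rw [h3] at h2
    exact h2
  obtain ⟨y, hy⟩ := roots_padic hR hs _ h1
  let S : Subfield Qb := (algebraMap ℚ_[p] (AlgebraicClosure ℚ_[p])).fieldRange.comap σ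
  have hSm : ∀ w : Qb, w ∈ S ↔ ∃ u : ℚ_[p], algebraMap ℚ_[p] (AlgebraicClosure ℚ_[p]) u = σ w :=
    fun w => Iff.rfl
  let SI : IntermediateField ℚ Qb := S.toIntermediateField fun q => by
    rw [hSm]
    refine ⟨algebraMap ℚ ℚ_[p] q, ?_⟩
    rw [eq_ratCast, map_ratCast, eq_ratCast, map_ratCast]
  have hSI : ∀ w : Qb, w ∈ SI ↔ w ∈ S := fun w => Iff.rfl
  have hn0 : (n : Qb) ≠ 0 := by exact_mod_cast hn.ne'
  have hθS : (θ : Qb) ∈ S := by
    have h2 : (n : Qb) * (θ : Qb) ∈ S := by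
      rw [hSm]
      exact ⟨y, hy.symm⟩
    have h3 : (n : Qb) ∈ S := natCast_mem S n
    have h4 := S.mul_mem (S.inv_mem h3) h2
    rwa [inv_mul_cancel_left₀ hn0] at h4
  have htop : (⊤ : IntermediateField ℚ (IntermediateField.adjoin ℚ (A : Set Qb))) ≤
      SI.comap (IntermediateField.adjoin ℚ (A : Set Qb)).val := by
    rw [← hθ, IntermediateField.adjoin_simple_le_iff]
    exact hθS
  have hx' : x ∈ IntermediateField.adjoin ℚ (A : Set Qb) :=
    IntermediateField.subset_adjoin ℚ _ hx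
  have h5 : (⟨x, hx'⟩ : IntermediateField.adjoin ℚ (A : Set Qb)) ∈
      SI.comap (IntermediateField.adjoin ℚ (A : Set Qb)).val := htop trivial
  have h6 : x ∈ S := h5
  rw [hSm] at h6
  obtain ⟨u, hu⟩ := h6
  exact ⟨u, hu.symm⟩

end Run7.h594.UN
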